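import Mathlib

set_option autoImplicit false

namespace Pool.Agent.Results.MP_4c442e_co.ModifiedEGZ

/-- `HasProp G t L`: every zero-sum sequence (finite list) over `G` of length at least `L` has a
zero-sum subsequence of length exactly `t`. -/
def HasProp (G : Type) [AddCommGroup G] (t L : ℕ) : Prop :=
  ∀ l : List G, L ≤ l.length → l.sum = 0 →
    ∃ l' : List G, l'.Sublist l ∧ l'.length = t ∧ l'.sum = 0

/-- The modified Erdos-Ginzburg-Ziv constant `s'_t(G)`: the least `L` with `HasProp G t L`. -/
noncomputable def sPrime (t : ℕ) (G : Type) [AddCommGroup G] : ℕ := sInf {L | HasProp G t L}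

/-- the least integer `l ≥ 2^d` that does not divide `n`. -/
noncomputable def ell (n d : ℕ) : ℕ := sInf {l | 2 ^ d ≤ l ∧ ¬ l ∣ n}

/-! ### Generalities on multisets -/

lemma lift_le {α β : Type} (f : α → β) (Q : Multiset α) (T : Multiset β) (h : T ≤ Q.map f) :
    ∃ Q' ≤ Q, Q'.map f = T := by
  induction Q using Quot.inductionOn with
  | h q =>
    induction T using Quot.inductionOn with
    | h t =>
      have h' : (t : Multiset β) ≤ ((q.map f : List β) : Multiset β) := h
      rw [Multiset.coe_le] at h'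
      obtain ⟨t', ht', hsub⟩ := h'
      rw [List.sublist_map_iff] at hsub
      obtain ⟨q', hq', rfl⟩ := hsub
      exact ⟨(q' : Multiset α), Multiset.coe_le.2 hq'.subperm, Multiset.coe_eq_coe.2 ht'⟩

lemma exists_le_card {α : Type} (S : Multiset α) (n : ℕ) (h : n ≤ Multiset.card S) :
    ∃ T ≤ S, Multiset.card T = n := by
  induction S using Quot.inductionOn with
  | h l =>
    refine ⟨(l.take n : Multiset α), Multiset.coe_le.2 (List.take_sublist n l).subperm, ?_⟩
    simpa using h

/-! ### Integer vectors -/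

section vec

variable {d : ℕ}

/-- parity vector. -/
def par (v : Fin d → ℤ) : Fin d → ZMod 2 := fun j => (v j : ZMod 2)

/-- the sum of `T` vanishes modulo `2^k`. -/
def Z (k : ℕ) (T : Multiset (Fin d → ℤ)) : Prop := ∀ j, (2 ^ k : ℤ) ∣ T.sum j

/-- `T` is a subsequence of length `2^k` with sum zero modulo `2^k`. -/
def Has (k : ℕ) (S : Multiset (Fin d → ℤ)) : Prop :=
  ∃ T ≤ S, Multiset.card T = 2 ^ k ∧ Z k T

def half (p : (Fin d → ℤ) × (Fin d → ℤ)) : Fin d → ℤ := fun j => (p.1 j + p.2 j) / 2

lemma par_eq_iff {a b : Fin d → ℤ} : par a = par b ↔ ∀ j, (2 : ℤ) ∣ a j - b j := by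
  unfold par
  rw [funext_iff]
  refine forall_congr' fun j => ?_
  rw [eq_comm, ZMod.intCast_eq_intCast_iff_dvd_sub]
  norm_num

lemma two_half {p : (Fin d → ℤ) × (Fin d → ℤ)} (h : par p.1 = par p.2) :
    p.1 + p.2 = 2 • half p := by
  funext j
  have := par_eq_iff.1 h j
  simp only [half, Pi.add_apply, Pi.smul_apply, nsmul_eq_mul, Nat.cast_ofNat]
  omega

lemma lift_T {k : ℕ} {S : Multiset (Fin d → ℤ)} {Q : Multiset ((Fin d → ℤ) × (Fin d → ℤ))}
    (hS : Q.map Prod.fst + Q.map Prod.snd ≤ S) (hQ : ∀ p ∈ Q, par p.1 = par p.2)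
    (hT : Has k (Q.map half)) : Has (k + 1) S := by
  obtain ⟨T', hT', hc, hz⟩ := hT
  obtain ⟨Q', hQ', rfl⟩ := lift_le _ _ _ hT'
  refine ⟨Q'.map Prod.fst + Q'.map Prod.snd, ?_, ?_, ?_⟩
  · exact (add_le_add (Multiset.map_le_map hQ') (Multiset.map_le_map hQ')).trans hS
  · simp only [Multiset.card_add, Multiset.card_map] at hc ⊢
    rw [hc, pow_succ]; ring
  · intro j
    have e : (Q'.map Prod.fst + Q'.map Prod.snd).sum = 2 • (Q'.map half).sum := by
      rw [Multiset.sum_add, ← Multiset.sum_map_add, ← Multiset.sum_map_nsmul]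
      congr 1
      apply Multiset.map_congr rfl
      intro p hp
      exact two_half (hQ p (Multiset.mem_of_le hQ' hp))
    rw [e]
    have := hz j
    simp only [Pi.smul_apply, nsmul_eq_mul, Nat.cast_ofNat]
    rw [pow_succ, mul_comm]
    exact mul_dvd_mul_left 2 this

lemma pairing (S : Multiset (Fin d → ℤ)) :
    ∃ (Q : Multiset ((Fin d → ℤ) × (Fin d → ℤ))) (R : Multiset (Fin d → ℤ)),
      S = Q.map Prod.fst + Q.map Prod.snd + R ∧ (∀ p ∈ Q, par p.1 = par p.2) ∧
      (R.map par).Nodup := by
  classical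
  induction S using Multiset.induction_on with
  | empty => exact ⟨0, 0, by simp, by simp, by simp⟩
  | cons a S ih =>
    obtain ⟨Q, R, hS, hQ, hR⟩ := ih
    by_cases h : par a ∈ R.map par
    · rw [Multiset.mem_map] at h
      obtain ⟨r, hr, hra⟩ := h
      refine ⟨(a, r) ::ₘ Q, R.erase r, ?_, ?_, ?_⟩
      · have : R = r ::ₘ R.erase r := (Multiset.cons_erase hr).symm
        rw [hS]
        conv_lhs => rw [this]
        simp only [Multiset.map_cons]
        simp only [← Multiset.singleton_add]
        abel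
      · intro p hp
        rw [Multiset.mem_cons] at hp
        rcases hp with rfl | hp
        · exact hra.symm
        · exact hQ p hp
      · exact Multiset.nodup_of_le (Multiset.map_le_map (Multiset.erase_le r R)) hR
    · refine ⟨Q, a ::ₘ R, ?_, hQ, ?_⟩
      · rw [hS]
        simp only [← Multiset.singleton_add]
        abel
      · rw [Multiset.map_cons, Multiset.nodup_cons]
        exact ⟨h, hR⟩

lemma card_le_of_nodup {R : Multiset (Fin d → ℤ)} (hR : (R.map par).Nodup) :
    Multiset.card R ≤ 2 ^ d := by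
  classical
  have h1 : (R.map par).toFinset.card = Multiset.card (R.map par) :=
    Multiset.toFinset_card_of_nodup hR
  have h2 := Finset.card_le_univ (R.map par).toFinset
  rw [h1, Multiset.card_map] at h2
  simpa [ZMod.card] using h2

lemma mem_of_card_eq {R : Multiset (Fin d → ℤ)} (hR : (R.map par).Nodup)
    (hc : Multiset.card R = 2 ^ d) (c : Fin d → ZMod 2) : ∃ r ∈ R, par r = c := by
  classical
  have h1 : (R.map par).toFinset.card = Multiset.card (R.map par) :=
    Multiset.toFinset_card_of_nodup hR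
  have h2 : (R.map par).toFinset = Finset.univ := by
    apply Finset.eq_univ_of_card
    rw [h1, Multiset.card_map, hc]
    simp [ZMod.card]
  have : c ∈ (R.map par).toFinset := by rw [h2]; exact Finset.mem_univ _
  simpa using this

/-- the structure of the extremal sequences. -/
def Struct (k : ℕ) (S : Multiset (Fin d → ℤ)) : Prop :=
  (∀ c, (S.map par).count c = 2 ^ k - 1) ∧
    ∀ a ∈ S, ∀ b ∈ S, par a = par b → ∀ j, (2 ^ k : ℤ) ∣ a j - b j

lemma swap {k : ℕ} (hD : ∀ S : Multiset (Fin d → ℤ), Multiset.card S = 2 ^ d * (2 ^ k - 1) →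
      ¬ Has k S → Struct k S) {S : Multiset (Fin d → ℤ)} (hS : ¬ Has (k + 1) S)
    {Q : Multiset ((Fin d → ℤ) × (Fin d → ℤ))} {a b r : Fin d → ℤ} {R : Multiset (Fin d → ℤ)}
    (hdec : S = ((a, b) ::ₘ Q).map Prod.fst + ((a, b) ::ₘ Q).map Prod.snd + (r ::ₘ R))
    (hQ : ∀ p ∈ Q, par p.1 = par p.2) (hab : par a = par b) (har : par a = par r)
    (hcard : Multiset.card ((a, b) ::ₘ Q) = 2 ^ d * (2 ^ k - 1)) (j : Fin d) :
    (2 ^ (k + 1) : ℤ) ∣ b j - r j := by
  classical
  have hk0 : k ≠ 0 := by
    rintro rfl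
    simp at hcard
  -- first structure
  have h1 : Struct k (((a, b) ::ₘ Q).map half) := by
    apply hD
    · rw [Multiset.card_map]; exact hcard
    · intro h
      apply hS
      refine lift_T (Q := (a, b) ::ₘ Q) ?_ ?_ h
      · rw [hdec]; exact Multiset.le_add_right _ _
      · intro p hp
        rw [Multiset.mem_cons] at hp
        rcases hp with rfl | hp
        · exact hab
        · exact hQ p hp
  have h2 : Struct k (((a, r) ::ₘ Q).map half) := by
    apply hD
    · rw [Multiset.card_map]
      simpa using hcard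
    · intro h
      apply hS
      refine lift_T (Q := (a, r) ::ₘ Q) ?_ ?_ h
      · have e : S = ((a, r) ::ₘ Q).map Prod.fst + ((a, r) ::ₘ Q).map Prod.snd + (b ::ₘ R) := by
          rw [hdec]
          simp only [Multiset.map_cons]
          simp only [← Multiset.singleton_add]
          abel
        rw [e]; exact Multiset.le_add_right _ _
      · intro p hp
        rw [Multiset.mem_cons] at hp
        rcases hp with rfl | hp
        · exact har
        · exact hQ p hp
  set x := half (a, b) with hx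
  set y := half (a, r) with hy
  have ha1 : a + b = 2 • x := two_half (p := (a, b)) hab
  have ha2 : a + r = 2 • y := two_half (p := (a, r)) har
  have hk2 : 2 ≤ 2 ^ k := by
    calc 2 = 2 ^ 1 := by norm_num
      _ ≤ 2 ^ k := Nat.pow_le_pow_right (by norm_num) (by omega)
  have c1 := h1.1 (par x)
  have c2 := h2.1 (par x)
  rw [Multiset.map_cons, Multiset.map_cons, Multiset.count_cons] at c1 c2
  rw [if_pos rfl] at c1
  have hxy : par x = par y := by
    by_contra hne
    rw [if_neg hne] at c2
    omega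
  have hdiv : (2 ^ k : ℤ) ∣ x j - y j := by
    by_cases hk3 : 2 ^ k = 2
    · have := par_eq_iff.1 hxy j
      have h2k : (2 ^ k : ℤ) = 2 := by exact_mod_cast hk3
      rw [h2k]; exact this
    · have hpos : 0 < Multiset.count (par x) ((Q.map half).map par) := by omega
      rw [Multiset.count_pos, Multiset.mem_map] at hpos
      obtain ⟨w, hw, hwx⟩ := hpos
      have e1 := h1.2 x (by rw [Multiset.map_cons]; exact Multiset.mem_cons_self _ _) w
        (by rw [Multiset.map_cons]; exact Multiset.mem_cons_of_mem hw) hwx.symm j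
      have e2 := h2.2 y (by rw [Multiset.map_cons]; exact Multiset.mem_cons_self _ _) w
        (by rw [Multiset.map_cons]; exact Multiset.mem_cons_of_mem hw) (by rw [← hxy, hwx]) j
      have : x j - y j = (x j - w j) - (y j - w j) := by ring
      rw [this]
      exact dvd_sub e1 e2
  have f1 := congrFun ha1 j
  have f2 := congrFun ha2 j
  simp only [Pi.add_apply, Pi.smul_apply, nsmul_eq_mul, Nat.cast_ofNat] at f1 f2
  have : b j - r j = 2 * (x j - y j) := by linarith
  rw [this, pow_succ, mul_comm]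
  exact mul_dvd_mul_left 2 hdiv

lemma sum_congr_mod {k : ℕ} {T : Multiset (Fin d → ℤ)} {r : Fin d → ℤ}
    (hT : ∀ s ∈ T, ∀ j, (2 ^ k : ℤ) ∣ s j - r j) (j : Fin d) :
    (2 ^ k : ℤ) ∣ T.sum j - (Multiset.card T) * r j := by
  have e : T.sum j - (Multiset.card T) * r j = (T.map (fun s => s j - r j)).sum := by
    clear hT
    induction T using Multiset.induction_on with
    | empty => simp
    | cons a T ih =>
      simp only [Multiset.sum_cons, Pi.add_apply, Multiset.card_cons, Multiset.map_cons, ← ih]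
      push_cast
      ring
  rw [e]
  apply Multiset.dvd_sum
  intro x hx
  rw [Multiset.mem_map] at hx
  obtain ⟨s, hs, rfl⟩ := hx
  exact hT s hs j

lemma Z_of_congr {k : ℕ} {T : Multiset (Fin d → ℤ)} {r : Fin d → ℤ}
    (hT : ∀ s ∈ T, ∀ j, (2 ^ k : ℤ) ∣ s j - r j) (hc : Multiset.card T = 2 ^ k) : Z k T := by
  intro j
  have h1 := sum_congr_mod hT j
  have h2 : T.sum j = (T.sum j - (Multiset.card T) * r j) + (2 ^ k : ℤ) * r j := by
    rw [hc]; push_cast; ring
  rw [h2]
  exact dvd_add h1 (dvd_mul_right _ _)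

theorem main (d : ℕ) : ∀ k : ℕ,
    (∀ S : Multiset (Fin d → ℤ), 2 ^ d * (2 ^ k - 1) + 1 ≤ Multiset.card S → Has k S) ∧
    (∀ S : Multiset (Fin d → ℤ), Multiset.card S = 2 ^ d * (2 ^ k - 1) → ¬ Has k S →
      Struct k S) := by
  classical
  intro k
  induction k with
  | zero =>
    refine ⟨?_, ?_⟩
    · intro S hS
      have : S ≠ 0 := by
        rintro rfl
        simp at hS
      obtain ⟨a, ha⟩ := Multiset.exists_mem_of_ne_zero this
      refine ⟨{a}, Multiset.singleton_le.2 ha, by simp, ?_⟩
      intro j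
      simp
    · intro S hS _
      have : S = 0 := by
        rw [← Multiset.card_eq_zero, hS]; simp
      subst this
      refine ⟨by simp, by simp⟩
  | succ k ih =>
    obtain ⟨ihH, ihD⟩ := ih
    have hpos : 1 ≤ 2 ^ k := Nat.one_le_two_pow
    have hpos' : 2 ^ (k + 1) = 2 * 2 ^ k := by rw [pow_succ]; ring
    have hid : 2 ^ d * (2 ^ (k + 1) - 1) = 2 * (2 ^ d * (2 ^ k - 1)) + 2 ^ d := by
      rw [hpos']
      obtain ⟨m, hm⟩ : ∃ m, 2 ^ k = m + 1 := ⟨2 ^ k - 1, by omega⟩
      rw [hm]
      have : 2 * (m + 1) - 1 = 2 * m + 1 := by omega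
      rw [this]
      simp
      ring
    refine ⟨?_, ?_⟩
    · intro S hS
      obtain ⟨Q, R, hdec, hQ, hR⟩ := pairing S
      have hRc := card_le_of_nodup hR
      have hcS : Multiset.card S = 2 * Multiset.card Q + Multiset.card R := by
        rw [hdec]; simp; ring
      apply lift_T (Q := Q) (by rw [hdec]; exact Multiset.le_add_right _ _) hQ
      apply ihH
      rw [Multiset.card_map]
      omega
    · intro S hS hno
      obtain ⟨Q, R, hdec, hQ, hR⟩ := pairing S
      have hRc := card_le_of_nodup hR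
      have hcS : Multiset.card S = 2 * Multiset.card Q + Multiset.card R := by
        rw [hdec]; simp; ring
      have hQc : Multiset.card Q ≤ 2 ^ d * (2 ^ k - 1) := by
        by_contra hcon
        push Not at hcon
        apply hno
        apply lift_T (Q := Q) (by rw [hdec]; exact Multiset.le_add_right _ _) hQ
        apply ihH
        rw [Multiset.card_map]
        omega
      have hRc' : Multiset.card R = 2 ^ d := by omega
      have hQc' : Multiset.card Q = 2 ^ d * (2 ^ k - 1) := by omega
      -- every element of `S` is congruent to the element of `R` in its class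
      have hall : ∀ s ∈ S, ∃ r ∈ R, par r = par s ∧ ∀ j, (2 ^ (k + 1) : ℤ) ∣ s j - r j := by
        intro s hs
        rw [hdec, Multiset.mem_add, Multiset.mem_add] at hs
        rcases hs with (hs | hs) | hs
        · rw [Multiset.mem_map] at hs
          obtain ⟨⟨a, b⟩, hp, rfl⟩ := hs
          obtain ⟨r, hr, hrp⟩ := mem_of_card_eq hR hRc' (par a)
          refine ⟨r, hr, hrp, ?_⟩
          intro j
          have eQ : Q = (a, b) ::ₘ Q.erase (a, b) := (Multiset.cons_erase hp).symm
          have eR : R = r ::ₘ R.erase r := (Multiset.cons_erase hr).symm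
          have hab : par a = par b := hQ _ hp
          refine swap ihD hno (Q := Q.erase (a, b)) (a := b) (b := a) (r := r) (R := R.erase r)
            ?_ (fun p hp' => hQ p (Multiset.mem_of_mem_erase hp')) hab.symm
            (by rw [← hab, hrp]) ?_ j
          · rw [hdec]
            conv_lhs => rw [eQ, eR]
            simp only [Multiset.map_cons]
            simp only [← Multiset.singleton_add]
            abel
          · rw [← hQc']
            conv_rhs => rw [eQ]
            simp
        · rw [Multiset.mem_map] at hs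
          obtain ⟨⟨a, b⟩, hp, rfl⟩ := hs
          obtain ⟨r, hr, hrp⟩ := mem_of_card_eq hR hRc' (par b)
          refine ⟨r, hr, hrp, ?_⟩
          intro j
          have eQ : Q = (a, b) ::ₘ Q.erase (a, b) := (Multiset.cons_erase hp).symm
          have eR : R = r ::ₘ R.erase r := (Multiset.cons_erase hr).symm
          have hab : par a = par b := hQ _ hp
          refine swap ihD hno (Q := Q.erase (a, b)) (a := a) (b := b) (r := r) (R := R.erase r)
            ?_ (fun p hp' => hQ p (Multiset.mem_of_mem_erase hp')) hab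
            (by rw [hab, hrp]) ?_ j
          · rw [hdec]
            conv_lhs => rw [eQ, eR]
          · rw [← hQc']
            conv_rhs => rw [eQ]
        · exact ⟨s, hs, rfl, fun j => by simp⟩
      have hinj : ∀ r₁ ∈ R, ∀ r₂ ∈ R, par r₁ = par r₂ → r₁ = r₂ := by
        intro r₁ h₁ r₂ h₂ h
        exact Multiset.inj_on_of_nodup_map hR _ h₁ _ h₂ h
      have hcong : ∀ a ∈ S, ∀ b ∈ S, par a = par b → ∀ j, (2 ^ (k + 1) : ℤ) ∣ a j - b j := by
        intro a ha b hb hab j
        obtain ⟨r₁, hr₁, hp₁, hd₁⟩ := hall a ha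
        obtain ⟨r₂, hr₂, hp₂, hd₂⟩ := hall b hb
        have : r₁ = r₂ := hinj r₁ hr₁ r₂ hr₂ (by rw [hp₁, hp₂, hab])
        subst this
        have e : a j - b j = (a j - r₁ j) - (b j - r₁ j) := by ring
        rw [e]
        exact dvd_sub (hd₁ j) (hd₂ j)
      refine ⟨?_, hcong⟩
      -- class sizes
      have hle : ∀ c, (S.map par).count c ≤ 2 ^ (k + 1) - 1 := by
        intro c
        by_contra hcon
        push Not at hcon
        apply hno
        have hcnt : (S.map par).count c = Multiset.card (S.filter (fun s => c = par s)) := by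
          rw [Multiset.count_map]
        rw [hcnt] at hcon
        obtain ⟨T, hT, hTc⟩ := exists_le_card (S.filter (fun s => c = par s)) (2 ^ (k + 1))
          (by omega)
        refine ⟨T, hT.trans (Multiset.filter_le _ _), hTc, ?_⟩
        obtain ⟨r, hr, hrp⟩ := mem_of_card_eq hR hRc' c
        apply Z_of_congr (r := r) _ hTc
        intro s hs j
        have hs' := Multiset.mem_of_le hT hs
        rw [Multiset.mem_filter] at hs'
        have hrS : r ∈ S := by rw [hdec]; exact Multiset.mem_add.2 (Or.inr hr)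
        exact hcong s hs'.1 r hrS (by rw [hrp, hs'.2]) j
      have hsum : ∑ c : Fin d → ZMod 2, (S.map par).count c
          = ∑ c : Fin d → ZMod 2, (2 ^ (k + 1) - 1) := by
        rw [Multiset.sum_count_eq_card (fun a _ => Finset.mem_univ a), Multiset.card_map, hS]
        simp [ZMod.card]
      intro c
      exact (Finset.sum_eq_sum_iff_of_le (fun c _ => hle c)).1 hsum c (Finset.mem_univ c)

/-- sums of families of multisets that are constant modulo `2^k`. -/
lemma fam {k N : ℕ} (M : (Fin d → ZMod 2) → Multiset (Fin d → ℤ))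
    (t : (Fin d → ZMod 2) → (Fin d → ℤ))
    (hM : ∀ c, ∀ x ∈ M c, ∀ j, (2 ^ k : ℤ) ∣ x j - t c j)
    (hN : ∀ c, Multiset.card (M c) = N) (j : Fin d) :
    (2 ^ k : ℤ) ∣ (∑ c, M c).sum j - N * ∑ c, t c j := by
  have e : (∑ c, M c).sum j - N * ∑ c, t c j = ∑ c, ((M c).sum j - N * t c j) := by
    have e1 : (∑ c, M c).sum = ∑ c, (M c).sum :=
      map_sum (Multiset.sumAddMonoidHom : Multiset (Fin d → ℤ) →+ (Fin d → ℤ)) _ _
    rw [e1, Finset.sum_apply, Finset.sum_sub_distrib, Finset.mul_sum]
  rw [e]
  apply Finset.dvd_sum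
  intro c _
  have := sum_congr_mod (hM c) j
  rwa [hN c] at this

lemma sum_filter_par (S : Multiset (Fin d → ℤ)) :
    ∑ c : Fin d → ZMod 2, S.filter (fun s => par s = c) = S := by
  classical
  ext x
  rw [Multiset.count_sum']
  simp only [Multiset.count_filter]
  simp

lemma sum_le_sum_multiset {ι : Type} (s : Finset ι) (f g : ι → Multiset (Fin d → ℤ))
    (h : ∀ i ∈ s, f i ≤ g i) : ∑ i ∈ s, f i ≤ ∑ i ∈ s, g i := Finset.sum_le_sum h

/-- for `k ≥ d ≥ 1` a zero-sum sequence of length `2^d (2^k - 1)` has a zero-sum subsequence of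
length `2^k`. -/
lemma upper_zero {k : ℕ} (hd : 1 ≤ d) (hk : d ≤ k) (S : Multiset (Fin d → ℤ))
    (hS : Multiset.card S = 2 ^ d * (2 ^ k - 1)) (hz : Z k S) : Has k S := by
  classical
  by_contra hno
  obtain ⟨hcnt, hcong⟩ := (main d k).2 S hS hno
  have h2k : 2 ≤ 2 ^ k := by
    calc 2 = 2 ^ 1 := by norm_num
      _ ≤ 2 ^ k := Nat.pow_le_pow_right (by norm_num) (by omega)
  have hrep : ∀ c : Fin d → ZMod 2, ∃ t ∈ S, par t = c := by
    intro c
    have : 0 < (S.map par).count c := by rw [hcnt c]; omega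
    rw [Multiset.count_pos, Multiset.mem_map] at this
    exact this
  choose t ht htc using hrep
  have hcard : ∀ c, Multiset.card (S.filter (fun s => par s = c)) = 2 ^ k - 1 := by
    intro c
    rw [← hcnt c, Multiset.count_map]
    congr 1
    apply Multiset.filter_congr
    intro x _
    exact eq_comm
  have hM : ∀ c, ∀ x ∈ S.filter (fun s => par s = c), ∀ j, (2 ^ k : ℤ) ∣ x j - t c j := by
    intro c x hx j
    rw [Multiset.mem_filter] at hx
    exact hcong x hx.1 (t c) (ht c) (by rw [hx.2, htc c]) j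
  have hsum : ∀ j, (2 ^ k : ℤ) ∣ ∑ c, t c j := by
    intro j
    have h1 := fam (fun c => S.filter (fun s => par s = c)) t hM hcard j
    rw [sum_filter_par] at h1
    have h2 := hz j
    have h3 := dvd_sub h2 h1
    have h4 : S.sum j - (S.sum j - ((2 ^ k - 1 : ℕ) : ℤ) * ∑ c, t c j)
        = (2 ^ k : ℤ) * (∑ c, t c j) - ∑ c, t c j := by
      rw [Nat.cast_sub (by omega)]
      push_cast
      ring
    rw [h4] at h3
    exact (dvd_sub_right (dvd_mul_right _ _)).1 h3
  have hle : 2 ^ (k - d) ≤ 2 ^ k - 1 := by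
    have : 2 ^ (k - d) * 2 ≤ 2 ^ k := by
      calc 2 ^ (k - d) * 2 = 2 ^ (k - d + 1) := by rw [pow_succ]
        _ ≤ 2 ^ k := Nat.pow_le_pow_right (by norm_num) (by omega)
    have h1 : 1 ≤ 2 ^ (k - d) := Nat.one_le_two_pow
    omega
  have hT : ∀ c, ∃ T ≤ S.filter (fun s => par s = c), Multiset.card T = 2 ^ (k - d) := by
    intro c
    exact exists_le_card _ _ (by rw [hcard c]; exact hle)
  choose T hTle hTc using hT
  apply hno
  refine ⟨∑ c, T c, ?_, ?_, ?_⟩
  · calc ∑ c, T c ≤ ∑ c, S.filter (fun s => par s = c) :=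
        sum_le_sum_multiset _ _ _ (fun c _ => hTle c)
      _ = S := sum_filter_par S
  · rw [Multiset.card_sum]
    simp only [hTc]
    simp [ZMod.card]
    rw [← pow_add]
    congr 1
    omega
  · intro j
    have h1 := fam T t (fun c x hx j => hM c x (Multiset.mem_of_le (hTle c) hx) j) hTc j
    have h2 : (2 ^ k : ℤ) ∣ ((2 ^ (k - d) : ℕ) : ℤ) * ∑ c, t c j :=
      dvd_mul_of_dvd_right (hsum j) _
    have h3 := dvd_add h1 h2
    simpa using h3

end vec

/-! ### Back to `(ℤ/2^k)^d` -/

section group

variable {d k : ℕ}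

/-- integer representatives. -/
def lft (g : Fin d → ZMod (2 ^ k)) : Fin d → ℤ := fun j => ((g j).val : ℤ)

lemma Z_lft (T : Multiset (Fin d → ZMod (2 ^ k))) : Z k (T.map lft) ↔ T.sum = 0 := by
  have e : ∀ j, (((T.map lft).sum j : ℤ) : ZMod (2 ^ k)) = T.sum j := by
    intro j
    induction T using Multiset.induction_on with
    | empty => simp
    | cons a T ih =>
      simp only [Multiset.map_cons, Multiset.sum_cons, Pi.add_apply, Int.cast_add, ih, lft,
        Int.cast_natCast, ZMod.natCast_zmod_val]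
  unfold Z
  rw [funext_iff]
  refine forall_congr' fun j => ?_
  rw [← e j]
  have := ZMod.intCast_zmod_eq_zero_iff_dvd ((T.map lft).sum j) (2 ^ k)
  simp only [Pi.zero_apply]
  rw [this]
  push_cast
  rfl

lemma Has_lft {S : Multiset (Fin d → ZMod (2 ^ k))} (h : Has k (S.map lft)) :
    ∃ T ≤ S, Multiset.card T = 2 ^ k ∧ T.sum = 0 := by
  obtain ⟨T', hT', hc, hz⟩ := h
  obtain ⟨T, hT, rfl⟩ := lift_le _ _ _ hT'
  exact ⟨T, hT, by simpa using hc, (Z_lft T).1 hz⟩

lemma list_of_multiset {G : Type} [AddCommGroup G] {t : ℕ} {l : List G}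
    (h : ∃ T ≤ (l : Multiset G), Multiset.card T = t ∧ T.sum = 0) :
    ∃ l' : List G, l'.Sublist l ∧ l'.length = t ∧ l'.sum = 0 := by
  obtain ⟨T, hT, hc, hs⟩ := h
  induction T using Quot.inductionOn with
  | h q =>
    have hT' : (q : Multiset G) ≤ (l : Multiset G) := hT
    rw [Multiset.coe_le] at hT'
    obtain ⟨q', hq', hsub⟩ := hT'
    refine ⟨q', hsub, ?_, ?_⟩
    · rw [hq'.length_eq]; simpa using hc
    · rw [hq'.sum_eq]; simpa using hs

/-- Harborth's bound. -/
lemma upper_all : HasProp (Fin d → ZMod (2 ^ k)) (2 ^ k) (2 ^ d * (2 ^ k - 1) + 1) := by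
  intro l hl _
  apply list_of_multiset
  apply Has_lft
  apply (main d k).1
  simpa using hl

lemma upper_good (hd : 1 ≤ d) (hk : d ≤ k) :
    HasProp (Fin d → ZMod (2 ^ k)) (2 ^ k) (2 ^ d * (2 ^ k - 1)) := by
  intro l hl hs
  rcases Nat.lt_or_ge (2 ^ d * (2 ^ k - 1)) l.length with h | h
  · exact upper_all l h hs
  · apply list_of_multiset
    apply Has_lft
    apply upper_zero hd hk
    · simp only [Multiset.map_coe, Multiset.coe_card, List.length_map]
      omega
    · rw [Z_lft]
      simpa using hs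

/-! ### Lower bounds -/

/-- the vertex `χ_A + a` of the translated cube. -/
def vert (a : Fin d → ZMod (2 ^ k)) (A : Finset (Fin d)) : Fin d → ZMod (2 ^ k) :=
  fun j => (if j ∈ A then 1 else 0) + a j

/-- every vertex of the cube with multiplicity `2^k - 1`. -/
def cube (a : Fin d → ZMod (2 ^ k)) : Multiset (Fin d → ZMod (2 ^ k)) :=
  ((2 ^ k - 1) • (Finset.univ : Finset (Finset (Fin d))).val).map (vert a)

lemma card_cube (a : Fin d → ZMod (2 ^ k)) :
    Multiset.card (cube a) = 2 ^ d * (2 ^ k - 1) := by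
  simp [cube, mul_comm]

lemma sum_vert (a : Fin d → ZMod (2 ^ k)) (T : Multiset (Finset (Fin d))) (j : Fin d) :
    (T.map (vert a)).sum j = (T.countP (fun A => j ∈ A) : ZMod (2 ^ k))
      + (Multiset.card T : ZMod (2 ^ k)) * a j := by
  classical
  induction T using Multiset.induction_on with
  | empty => simp
  | cons A T ih =>
    simp only [Multiset.map_cons, Multiset.sum_cons, Pi.add_apply, ih, Multiset.countP_cons,
      Multiset.card_cons, vert]
    split_ifs
    · push_cast; ring
    · push_cast; ring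

lemma cube_no (a : Fin d → ZMod (2 ^ k)) :
    ¬ ∃ T ≤ cube a, Multiset.card T = 2 ^ k ∧ T.sum = 0 := by
  classical
  rintro ⟨T', hT', hc, hs⟩
  obtain ⟨T, hT, rfl⟩ := lift_le _ _ _ hT'
  rw [Multiset.card_map] at hc
  have hpos : 1 ≤ 2 ^ k := Nat.one_le_two_pow
  have hj : ∀ j, T.countP (fun A => j ∈ A) = 0 ∨ T.countP (fun A => j ∈ A) = 2 ^ k := by
    intro j
    have h1 := congrFun hs j
    rw [sum_vert, hc] at h1
    simp only [Nat.cast_pow, Nat.cast_ofNat, Pi.zero_apply] at h1
    have h2 : (2 ^ k : ZMod (2 ^ k)) = 0 := by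
      have := ZMod.natCast_self (2 ^ k)
      push_cast at this
      exact this
    rw [h2, zero_mul, add_zero] at h1
    rw [ZMod.natCast_eq_zero_iff] at h1
    have h3 : T.countP (fun A => j ∈ A) ≤ 2 ^ k := by
      rw [← hc]; exact Multiset.countP_le_card _ _
    obtain ⟨m, hm⟩ := h1
    rcases Nat.eq_zero_or_pos m with h0 | h0
    · left; rw [hm, h0, mul_zero]
    · right
      have : 2 ^ k * 1 ≤ 2 ^ k * m := Nat.mul_le_mul_left _ h0
      omega
  have hTne : T ≠ 0 := by
    rintro rfl
    rw [Multiset.card_zero] at hc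
    omega
  obtain ⟨A, hA⟩ := Multiset.exists_mem_of_ne_zero hTne
  have hall : ∀ B ∈ T, B = A := by
    intro B hB
    ext j
    rcases hj j with h | h
    · rw [Multiset.countP_eq_zero] at h
      exact ⟨fun hx => absurd hx (h B hB), fun hx => absurd hx (h A hA)⟩
    · rw [← hc, Multiset.countP_eq_card] at h
      exact ⟨fun _ => h A hA, fun _ => h B hB⟩
  have hrep : T = Multiset.replicate (2 ^ k) A := by
    rw [Multiset.eq_replicate]
    exact ⟨hc, hall⟩
  have hcount := Multiset.count_le_of_le A hT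
  rw [hrep, Multiset.count_replicate_self, Multiset.count_nsmul] at hcount
  have : Multiset.count A (Finset.univ : Finset (Finset (Fin d))).val = 1 :=
    Multiset.count_eq_one_of_mem (Finset.nodup _) (Finset.mem_univ A)
  rw [this] at hcount
  omega

lemma sum_cube (a : Fin d → ZMod (2 ^ k)) (j : Fin d) :
    (cube a).sum j = - ((2 ^ (d - 1) : ZMod (2 ^ k)) + 2 ^ d * a j) := by
  classical
  unfold cube
  rw [sum_vert]
  have h2 : (2 ^ k : ZMod (2 ^ k)) = 0 := by
    have := ZMod.natCast_self (2 ^ k)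
    push_cast at this
    exact this
  have hm : ((2 ^ k - 1 : ℕ) : ZMod (2 ^ k)) = -1 := by
    rw [Nat.cast_sub Nat.one_le_two_pow]
    push_cast
    rw [h2]; ring
  have hcount : (Finset.univ : Finset (Finset (Fin d))).val.countP (fun A => j ∈ A)
      = 2 ^ (d - 1) := by
    rw [Multiset.countP_eq_card_filter]
    have e : (Finset.univ.filter (fun A : Finset (Fin d) => j ∈ A)).card = 2 ^ (d - 1) := by
      have e1 : (Finset.univ.filter (fun A : Finset (Fin d) => j ∈ A))
          = ((Finset.univ.erase j).powerset).image (insert j) := by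
        ext A
        simp only [Finset.mem_filter, Finset.mem_univ, true_and, Finset.mem_image,
          Finset.mem_powerset]
        constructor
        · intro h
          exact ⟨A.erase j, Finset.erase_subset_erase _ (Finset.subset_univ _),
            Finset.insert_erase h⟩
        · rintro ⟨B, _, rfl⟩
          exact Finset.mem_insert_self _ _
      rw [e1, Finset.card_image_of_injOn, Finset.card_powerset, Finset.card_erase_of_mem
        (Finset.mem_univ j)]
      · simp
      · intro B hB C hC h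
        simp only [Finset.coe_powerset, Set.mem_preimage, Set.mem_powerset_iff] at hB hC
        have hB' : j ∉ B := fun h' => by
          have := hB h'
          simp at this
        have hC' : j ∉ C := fun h' => by
          have := hC h'
          simp at this
        have := congrArg (fun X => Finset.erase X j) h
        simpa [Finset.erase_insert hB', Finset.erase_insert hC'] using this
    exact e
  rw [Multiset.countP_nsmul, hcount, Multiset.card_nsmul]
  simp only [Nat.cast_mul, hm]
  simp
  ring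

lemma not_hasProp_of {G : Type} [AddCommGroup G] {t L : ℕ} (S : Multiset G)
    (hc : L ≤ Multiset.card S) (hs : S.sum = 0) (hno : ¬ ∃ T ≤ S, Multiset.card T = t ∧ T.sum = 0) :
    ¬ HasProp G t L := by
  intro h
  obtain ⟨l', hsub, hl, hs'⟩ := h S.toList (by simpa using hc) (by simpa using hs)
  apply hno
  refine ⟨(l' : Multiset G), ?_, by simpa using hl, by simpa using hs'⟩
  have : (l' : Multiset G) ≤ (S.toList : Multiset G) := Multiset.coe_le.2 hsub.subperm
  simpa using this

/-- lower bound for `k < d`. -/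
lemma lower_small (hd : 1 ≤ d) (hk : k < d) {L : ℕ} (hL : L ≤ 2 ^ d * (2 ^ k - 1)) :
    ¬ HasProp (Fin d → ZMod (2 ^ k)) (2 ^ k) L := by
  apply not_hasProp_of (cube 0) (by rw [card_cube]; exact hL) _ (cube_no 0)
  funext j
  rw [sum_cube]
  have h2 : (2 ^ k : ZMod (2 ^ k)) = 0 := by
    have := ZMod.natCast_self (2 ^ k)
    push_cast at this
    exact this
  have : d - 1 = k + (d - 1 - k) := by omega
  rw [this, pow_add, h2]
  simp

/-- lower bound for `k ≥ d`. -/
lemma lower_big (hd : 1 ≤ d) (hk : d ≤ k) {L : ℕ} (hL : L < 2 ^ d * (2 ^ k - 1)) :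
    ¬ HasProp (Fin d → ZMod (2 ^ k)) (2 ^ k) L := by
  classical
  -- `2^d + 1` is invertible
  have hunit : IsUnit ((2 ^ d + 1 : ℕ) : ZMod (2 ^ k)) := by
    rw [ZMod.isUnit_iff_coprime]
    apply Nat.Coprime.pow_right
    rw [Nat.coprime_two_right, Nat.odd_iff]
    have : 2 ^ d = 2 * 2 ^ (d - 1) := by rw [← pow_succ']; congr 1; omega
    omega
  obtain ⟨u, hu⟩ := hunit
  set c : ZMod (2 ^ k) := ↑u⁻¹ * (-(2 ^ (d - 1))) with hc
  have hcu : (2 ^ d + 1 : ZMod (2 ^ k)) * c = -(2 ^ (d - 1)) := by
    have : (2 ^ d + 1 : ZMod (2 ^ k)) = u := by rw [hu]; push_cast; rfl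
    rw [hc, this, ← mul_assoc, Units.mul_inv, one_mul]
  set a : Fin d → ZMod (2 ^ k) := fun _ => c with ha
  have hmem : a ∈ cube a := by
    unfold cube
    rw [Multiset.mem_map]
    refine ⟨∅, ?_, ?_⟩
    · rw [Multiset.mem_nsmul]
      refine ⟨?_, Finset.mem_univ_val _⟩
      have : 2 ≤ 2 ^ k := by
        calc 2 = 2 ^ 1 := by norm_num
          _ ≤ 2 ^ k := Nat.pow_le_pow_right (by norm_num) (by omega)
      omega
    · funext j
      simp [vert]
  apply not_hasProp_of ((cube a).erase a)
  · rw [Multiset.card_erase_of_mem hmem, card_cube]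
    exact Nat.le_pred_of_lt hL
  · have h1 : a + ((cube a).erase a).sum = (cube a).sum := by
      rw [← Multiset.sum_cons, Multiset.cons_erase hmem]
    have h2 : (cube a).sum = a := by
      funext j
      rw [sum_cube]
      have : -((2 ^ (d - 1) : ZMod (2 ^ k)) + 2 ^ d * c) = c := by
        linear_combination (-1) * hcu
      exact this
    rw [h2] at h1
    simpa using h1
  · rintro ⟨T, hT, h⟩
    exact cube_no a ⟨T, hT.trans (Multiset.erase_le _ _), h⟩

end group

lemma ell_small {k d : ℕ} (hk : k < d) : ell (2 ^ k) d = 2 ^ d := by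
  have hlt : 2 ^ k < 2 ^ d := Nat.pow_lt_pow_right (by norm_num) hk
  apply le_antisymm
  · apply Nat.sInf_le
    exact ⟨le_refl _, fun h => absurd (Nat.le_of_dvd (by positivity) h) (by omega)⟩
  · exact le_csInf ⟨2 ^ d, le_refl _,
      fun h => absurd (Nat.le_of_dvd (by positivity) h) (by omega)⟩ (fun l hl => hl.1)

lemma not_dvd_aux {k d : ℕ} (hd : 1 ≤ d) : ¬ (2 ^ d + 1) ∣ 2 ^ k := by
  intro h
  rw [Nat.dvd_prime_pow Nat.prime_two] at h
  obtain ⟨m, _, hm⟩ := h
  have h1 : 2 ^ d = 2 * 2 ^ (d - 1) := by rw [← pow_succ']; congr 1; omega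
  have h2 : 1 ≤ 2 ^ (d - 1) := Nat.one_le_two_pow
  rcases Nat.eq_zero_or_pos m with h0 | h0
  · subst h0
    omega
  · have h3 : 2 ^ m = 2 * 2 ^ (m - 1) := by rw [← pow_succ']; congr 1; omega
    omega

lemma ell_big {k d : ℕ} (hd : 1 ≤ d) (hk : d ≤ k) : ell (2 ^ k) d = 2 ^ d + 1 := by
  apply le_antisymm
  · apply Nat.sInf_le
    exact ⟨by omega, not_dvd_aux hd⟩
  · refine le_csInf ⟨2 ^ d + 1, by omega, not_dvd_aux hd⟩ ?_
    rintro l ⟨h1, h2⟩
    rcases Nat.lt_or_ge (2 ^ d) l with h | h
    · exact h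
    · have : l = 2 ^ d := le_antisymm h h1
      subst this
      exact absurd (pow_dvd_pow 2 hk) h2

/-- For every `k ≥ 0` and `d ≥ 1`, with `n = 2^k` and `ℓ` the least integer `≥ 2^d` not dividing
`n`, one has `s'_n((ℤ/n)^d) = 2^d n - ℓ + 1`. -/
theorem result (k d : ℕ) (hd : 1 ≤ d) :
    (sPrime (2 ^ k) (Fin d → ZMod (2 ^ k)) : ℤ) = 2 ^ d * 2 ^ k - (ell (2 ^ k) d : ℤ) + 1 := by
  have hpos : 1 ≤ 2 ^ k := Nat.one_le_two_pow
  rcases Nat.lt_or_ge k d with hk | hk
  · rw [ell_small hk]
    have : sPrime (2 ^ k) (Fin d → ZMod (2 ^ k)) = 2 ^ d * (2 ^ k - 1) + 1 := by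
      apply le_antisymm
      · exact Nat.sInf_le upper_all
      · refine le_csInf ⟨_, upper_all⟩ ?_
        intro L hL
        by_contra hcon
        push Not at hcon
        exact lower_small hd hk (by omega) hL
    rw [this, Nat.cast_add, Nat.cast_mul, Nat.cast_sub hpos]
    push_cast
    ring
  · rw [ell_big hd hk]
    have : sPrime (2 ^ k) (Fin d → ZMod (2 ^ k)) = 2 ^ d * (2 ^ k - 1) := by
      apply le_antisymm
      · exact Nat.sInf_le (upper_good hd hk)
      · refine le_csInf ⟨_, upper_good hd hk⟩ ?_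
        intro L hL
        by_contra hcon
        push Not at hcon
        exact lower_big hd hk hcon hL
    rw [this, Nat.cast_mul, Nat.cast_sub hpos]
    push_cast
    ring


end Pool.Agent.Results.MP_4c442e_co.ModifiedEGZ
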